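import Pool.Agent.E8helper77.Mk.UN2
import Pool.Agent.Y449.MK.Sub

set_option autoImplicit false

open Pool.Agent.W689.Mk Pool.Agent.E8helper77.Mk
open scoped ComplexConjugate InnerProductSpace

namespace Pool.Agent.Results.MP_df2bd8_gt.RankOneHolonomyH77

/-- the representation `ρ` is continuous, and the space is spanned by common eigenvectors of the
operators `ρ (a t)` with eigenvalues `exp (c t)` -/
def IsWeightRep {E G : Type} [NormedAddCommGroup E] [NormedSpace ℝ E] [Group G]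
    [TopologicalSpace G] (a : ℝ → G) (ρ : G →* (E ≃ₗ[ℝ] E)) : Prop :=
  (∀ v : E, Continuous fun g : G => ρ g v) ∧
    Submodule.span ℝ {v : E | ∃ c : ℝ, ∀ t : ℝ, ρ (a t) v = Real.exp (c * t) • v} = ⊤

/-- the family `a` consists of the boosts in the direction of the unit vector `e`: `τ (a t)` is the
hyperbolic rotation of the plane spanned by `(e, 0)` and `(0, 1)` and fixes the vectors `(v, 0)`
with `v` perpendicular to `e` -/
def IsBoost {𝕜 V G : Type} [RCLike 𝕜] [NormedAddCommGroup V] [InnerProductSpace 𝕜 V] [Group G]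
    (τ : G →* Module.End 𝕜 (V × 𝕜)) (e : V) (a : ℝ → G) : Prop :=
  ∀ (t : ℝ) (v : V) (s : 𝕜), τ (a t) (v, s) =
    (v + (((Real.cosh t - 1 : ℝ) : 𝕜) * ⟪e, v⟫_𝕜 + ((Real.sinh t : ℝ) : 𝕜) * s) • e,
      ((Real.sinh t : ℝ) : 𝕜) * ⟪e, v⟫_𝕜 + ((Real.cosh t : ℝ) : 𝕜) * s)

theorem bst_isBoost {𝕜 V : Type} [RCLike 𝕜] [NormedAddCommGroup V] [InnerProductSpace 𝕜 V]
    [FiniteDimensional 𝕜 V] {e : V} (he : ‖e‖ = 1) (t : ℝ) (v : V) (s : 𝕜) :
    Un1.ap (Un1.bst he t : Un1.U 𝕜 V) (v, s) =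
    (v + (((Real.cosh t - 1 : ℝ) : 𝕜) * ⟪e, v⟫_𝕜 + ((Real.sinh t : ℝ) : 𝕜) * s) • e,
      ((Real.sinh t : ℝ) : 𝕜) * ⟪e, v⟫_𝕜 + ((Real.cosh t : ℝ) : 𝕜) * s) := by
  have h1 : Un1.al e (v, s) = (⟪e, v⟫_𝕜 + s) / 2 := by
    unfold Un1.al Un1.hf Un1.em; simp
  have h2 : Un1.be e (v, s) = (⟪e, v⟫_𝕜 - s) / 2 := by
    unfold Un1.be Un1.hf Un1.ep; simp
  have h4 : ((Real.sinh t : ℝ) : 𝕜) = ((Real.exp t : ℝ) : 𝕜) / 2 - ((Real.exp (-t) : ℝ) : 𝕜) / 2 := by
    rw [Real.sinh_eq]; push_cast; ring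
  have h5 : ((Real.cosh t : ℝ) : 𝕜) = ((Real.exp t : ℝ) : 𝕜) / 2 + ((Real.exp (-t) : ℝ) : 𝕜) / 2 := by
    rw [Real.cosh_eq]; push_cast; ring
  rw [Un1.ap_bst]
  unfold Un1.pr
  rw [h1, h2, RCLike.ofReal_sub, h4, h5, RCLike.ofReal_one]
  apply Prod.ext
  · show (((Real.exp t : ℝ) : 𝕜) * ((⟪e, v⟫_𝕜 + s) / 2)) • e +
      (((Real.exp (-t) : ℝ) : 𝕜) * ((⟪e, v⟫_𝕜 - s) / 2)) • e +
      (v - ((⟪e, v⟫_𝕜 + s) / 2) • e - ((⟪e, v⟫_𝕜 - s) / 2) • e) = _
    module
  · show (((Real.exp t : ℝ) : 𝕜) * ((⟪e, v⟫_𝕜 + s) / 2)) * 1 +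
      (((Real.exp (-t) : ℝ) : 𝕜) * ((⟪e, v⟫_𝕜 - s) / 2)) * (-1) +
      (s - ((⟪e, v⟫_𝕜 + s) / 2) * 1 - ((⟪e, v⟫_𝕜 - s) / 2) * (-1)) = _
    ring

/-- Let a closed affine manifold (or orbifold) with parallel volume be given by a connected cover
`X` with its group `Γ`, developing map `dev` and holonomy `hol`, and let the developing map be
injective. If the linear holonomy of some subgroup `H` of finite index lies in the image of a group
`G` of real rank one under a representation `ρ` on the model vector space, then the structure is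
complete: the developing map is a homeomorphism.

Here `G` may be any topological group with the decompositions of a group of real rank one (Cartan,
Iwasawa, Bruhat, Langlands), for instance (second part) the group of all isometries of the form of
signature `(n, 1)` over the real or the complex numbers, the one parameter group being the group of
boosts. -/
theorem result (E X Γ : Type) [NormedAddCommGroup E] [NormedSpace ℝ E] [FiniteDimensional ℝ E]
    [TopologicalSpace X] [T2Space X] [SecondCountableTopology X] [ConnectedSpace X]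
    [Group Γ] [MulAction Γ X] (dev : X → E) (hol : Γ →* (E ≃ᵃ[ℝ] E))
    (D : AffData X Γ E dev hol) (hinj : Function.Injective dev)
    (H : Subgroup Γ) (hH : H.FiniteIndex)
    (G : Type) [Group G] [TopologicalSpace G] [IsTopologicalGroup G] [T2Space G]
    (ρ : G →* (E ≃ₗ[ℝ] E)) (hρ : ∀ γ ∈ H, ∃ g : G, (hol γ).linear = ρ g) :
    (∀ R : RankOne G, IsWeightRep R.a ρ → IsHomeomorph dev) ∧
    (∀ (𝕜 V : Type) [RCLike 𝕜] [NormedAddCommGroup V] [InnerProductSpace 𝕜 V]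
      [FiniteDimensional 𝕜 V] (τ : G →* Module.End 𝕜 (V × 𝕜)), Un1.IsUnitary τ →
      ∀ (e : V) (a : ℝ → G), ‖e‖ = 1 → IsBoost τ e a → IsWeightRep a ρ → IsHomeomorph dev) := by
  have DH := Pool.Agent.Y449.MK.restrict D H hH
  have key : ∀ R : RankOne G, IsWeightRep R.a ρ → IsHomeomorph dev := by
    intro R h
    exact rank_one_complete DH hinj R ρ h.1 h.2 fun γ => hρ γ γ.2
  refine ⟨key, ?_⟩
  intro 𝕜 V _ _ _ _ τ hτ e a he ha h
  obtain ⟨φ, h2, h3⟩ := Un1.exists_iso hτ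
  have h1 : a = ((Un1.rankOne (𝕜 := 𝕜) he).trans φ h2).a := by
    funext t
    show a t = φ.symm (Un1.bst he t)
    rw [MulEquiv.eq_symm_apply]
    apply Un1.ext'
    rintro ⟨v, s⟩
    rw [h3, ha t v s]
    exact (bst_isBoost he t v s).symm
  rw [h1] at h
  exact key _ h

end Pool.Agent.Results.MP_df2bd8_gt.RankOneHolonomyH77
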